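import Pool.Agent.H52.XR2.S1
import Pool.Agent.H52.XR2.S2

/-!
# Project XR2, row SAC: `SymAff` is a closed condition

`xr_line`: the X-ray of a line; `ng`: the reflected body; `sameX_ng_iff`: the X-ray is even iff
`SameX C (ng C)`; `SymAff_iff`.
-/

set_option autoImplicit false

open MeasureTheory Set Filter Topology Metric
open scoped Real ENNReal

namespace Pool.XR2

open Pool.Agent.H45.XR

namespace S17

lemma tc_Ie (φ : ℝ) : tc φ (Complex.I * e φ) = 1 := by
  simp only [tc, Complex.mul_im, Complex.mul_re, Complex.I_re, Complex.I_im, e_re, e_im]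
  have := Real.sin_sq_add_cos_sq φ
  nlinarith

lemma yc_Ie (φ : ℝ) : yc φ (Complex.I * e φ) = 0 := by
  simp only [yc, Complex.mul_im, Complex.mul_re, Complex.I_re, Complex.I_im, e_re, e_im]
  ring

/-- The measure of the intersection with a line depends only on the level. -/
lemma vol_line (C : Set ℂ) (φ : ℝ) (p : ℂ) : volume {s : ℝ | p + s * e φ ∈ C} =
    volume {s : ℝ | ((tc φ p : ℝ) : ℂ) * (Complex.I * e φ) + s * e φ ∈ C} := by
  have h1 : {s : ℝ | p + s * e φ ∈ C} = (fun s : ℝ => s + yc φ p) ⁻¹'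
      {s : ℝ | ((tc φ p : ℝ) : ℂ) * (Complex.I * e φ) + s * e φ ∈ C} := by
    ext s
    simp only [mem_ofPred_eq, mem_preimage]
    have h2 := decomp φ p
    have h3 : p + (s : ℂ) * e φ = ((tc φ p : ℝ) : ℂ) * (Complex.I * e φ) +
        ((s + yc φ p : ℝ) : ℂ) * e φ := by
      push_cast
      linear_combination h2
    rw [h3]
  rw [h1]
  exact measure_preimage_add_right volume (yc φ p) _

lemma vol_line_fin {C : Set ℂ} (hC : IsCompact C) (φ : ℝ) (p : ℂ) :
    volume {s : ℝ | p + s * e φ ∈ C} < ⊤ := by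
  have hcl : IsClosed {s : ℝ | p + (s : ℂ) * e φ ∈ C} := hC.isClosed.preimage (by fun_prop)
  have hb : Bornology.IsBounded {s : ℝ | p + (s : ℂ) * e φ ∈ C} := by
    obtain ⟨R, hR⟩ := hC.isBounded.exists_norm_le
    refine (Metric.isBounded_iff_subset_closedBall 0).2 ⟨R + ‖p‖, fun s hs => ?_⟩
    have h1 := hR _ hs
    rw [mem_closedBall_zero_iff, Real.norm_eq_abs]
    have h2 : ‖(s : ℂ) * e φ‖ = |s| := by simp
    have h3 : ‖(s : ℂ) * e φ‖ ≤ ‖p + (s : ℂ) * e φ‖ + ‖p‖ := by
      have := norm_sub_le (p + (s : ℂ) * e φ) p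
      simpa using this
    linarith
  exact (Metric.isCompact_of_isClosed_isBounded hcl hb).measure_lt_top

/-- `SameX` in terms of the X-ray function. -/
lemma sameX_iff {C C' : Set ℂ} (hC : IsCompact C) (hC' : IsCompact C') (φ : ℝ) :
    SameX C C' φ ↔ ∀ t, xr C φ t = xr C' φ t := by
  constructor
  · intro h t
    unfold xr
    rw [h]
  · intro h p
    rw [vol_line C φ p, vol_line C' φ p]
    have := h (tc φ p)
    unfold xr at this
    exact (ENNReal.toReal_eq_toReal_iff' (vol_line_fin hC φ _).ne (vol_line_fin hC' φ _).ne).1 this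

/-- The reflected set. -/
def ng (C : Set ℂ) : Set ℂ := {z | -z ∈ C}

lemma ng_eq (C : Set ℂ) : ng C = (Homeomorph.neg ℂ) ⁻¹' C := rfl

lemma convex_ng {C : Set ℂ} (h : Convex ℝ C) : Convex ℝ (ng C) := by
  intro x hx y hy a b ha hb hab
  have := h hx hy ha hb hab
  simp only [ng, mem_ofPred_eq]
  convert this using 1
  module

lemma compact_ng {C : Set ℂ} (h : IsCompact C) : IsCompact (ng C) := by
  rw [ng_eq, Homeomorph.isCompact_preimage]
  exact h

lemma body_ng {C : Set ℂ} (h : Body C) : Body (ng C) := by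
  refine ⟨convex_ng h.conv, compact_ng h.cpt, ?_⟩
  rw [ng_eq, ← Homeomorph.preimage_interior]
  simpa using h.zero

lemma xr_ng (C : Set ℂ) (φ t : ℝ) : xr (ng C) φ t = xr C φ (-t) := by
  unfold xr
  congr 1
  have h1 : {s : ℝ | (t : ℂ) * (Complex.I * e φ) + s * e φ ∈ ng C} = (fun s : ℝ => -s) ⁻¹'
      {s : ℝ | ((-t : ℝ) : ℂ) * (Complex.I * e φ) + s * e φ ∈ C} := by
    ext s
    simp only [mem_ofPred_eq, mem_preimage, ng]
    have : -((t : ℂ) * (Complex.I * e φ) + s * e φ) =
        ((-t : ℝ) : ℂ) * (Complex.I * e φ) + ((-s : ℝ) : ℂ) * e φ := by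
      push_cast
      ring
    rw [this]
  rw [h1]
  exact Measure.measure_preimage_neg volume _

lemma xr_tr (C : Set ℂ) (φ t : ℝ) (z : ℂ) : xr (tr C z) φ t = xr C φ (t + tc φ z) := by
  unfold xr
  congr 1
  have h1 : {s : ℝ | (t : ℂ) * (Complex.I * e φ) + s * e φ ∈ tr C z} =
      {s : ℝ | ((t : ℂ) * (Complex.I * e φ) + z) + s * e φ ∈ C} := by
    ext s
    simp only [mem_ofPred_eq, tr]
    rw [add_right_comm]
  rw [h1, vol_line]
  rw [tc_add, tc_mul, tc_Ie, mul_one]

lemma sameX_ng_iff {C : Set ℂ} (hC : IsCompact C) (φ : ℝ) :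
    SameX C (ng C) φ ↔ ∀ t, xr C φ t = xr C φ (-t) := by
  rw [sameX_iff hC (compact_ng hC)]
  simp only [xr_ng]

lemma integral_ng (C : Set ℂ) (f : ℂ → ℝ) : ∫ z in ng C, f z = ∫ z in C, f (-z) := by
  have h1 : MeasurePreserving (fun z : ℂ => -z) volume volume := Measure.measurePreserving_neg _
  have h2 := h1.setIntegral_preimage_emb (Homeomorph.neg ℂ).measurableEmbedding (fun z => f (-z)) C
  simp only [neg_neg] at h2
  exact h2

lemma vol_tr (C : Set ℂ) (z : ℂ) : volume (tr C z) = volume C :=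
  measure_preimage_add_right volume z C

lemma integral_tr (C : Set ℂ) (hC : IsCompact C) (z : ℂ) :
    ∫ w in tr C z, w = (∫ w in C, w) - (volume C).toReal • z := by
  have h1 : MeasurePreserving (fun w : ℂ => w + z) volume volume := measurePreserving_add_right _ _
  have h2 := h1.setIntegral_preimage_emb (Homeomorph.addRight z).measurableEmbedding
    (fun w => w - z) C
  simp only [add_sub_cancel_right] at h2
  have h3 : tr C z = (fun w : ℂ => w + z) ⁻¹' C := rfl
  rw [h3, h2, integral_sub, setIntegral_const]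
  · rfl
  · exact (continuous_id.continuousOn).integrableOn_compact hC
  · exact (continuous_const.continuousOn).integrableOn_compact hC

/-- The level of the centroid of a set with a symmetric X-ray. -/
lemma tc_cen_of_symm {S : Set ℂ} (hS : IsCompact S) (hV : 0 < (volume S).toReal) {φ a : ℝ}
    (h : ∀ t, xr S φ (a + t) = xr S φ (a - t)) : tc φ (cen S) = a := by
  set z : ℂ := (a : ℂ) * (Complex.I * e φ) with hz
  have hza : tc φ z = a := by rw [hz, tc_mul, tc_Ie, mul_one]
  have hc := compact_tr hS z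
  have h1 : SameX (tr S z) (ng (tr S z)) φ := by
    rw [sameX_ng_iff hc]
    intro t
    rw [xr_tr, xr_tr, hza]
    have := h t
    rw [show t + a = a + t by ring, show -t + a = a - t by ring]
    exact this
  have h2 := sameX_moment hc (compact_ng hc) h1
  rw [integral_ng] at h2
  have h3 : ∫ w in tr S z, tc φ (-w) = - ∫ w in tr S z, tc φ w := by
    rw [← integral_neg]
    congr 1
    ext w
    simp [tc]
    ring
  rw [h3] at h2
  have h4 : ∫ w in tr S z, tc φ w = 0 := by linarith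
  rw [integral_tc hc, integral_tr S hS, tc_sub, tc_smul, hza] at h4
  unfold cen
  rw [tc_smul]
  field_simp
  linarith

lemma compact_sec {K : Set (ℂ × ℝ)} (hK : Body3 K) (h : ℝ) : IsCompact (sec K h) := by
  have hcl : IsClosed (sec K h) := hK.cpt.isClosed.preimage (by fun_prop)
  obtain ⟨R, hR⟩ := hK.cpt.isBounded.exists_norm_le
  refine Metric.isCompact_of_isClosed_isBounded hcl ?_
  refine (Metric.isBounded_iff_subset_closedBall 0).2 ⟨R, fun z hz => ?_⟩
  rw [mem_closedBall_zero_iff]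
  exact (norm_fst_le ((z, h) : ℂ × ℝ)).trans (hR _ hz)

lemma vol_sec_pos {K : Set (ℂ × ℝ)} (hK : Body3 K) {h : ℝ} (hh : h ∈ Hts K) :
    0 < (volume (sec K h)).toReal := by
  refine ENNReal.toReal_pos ?_ (compact_sec hK h).measure_lt_top.ne
  exact (lt_of_lt_of_le (isOpen_interior.measure_pos volume (interior_sec_nonempty hK hh))
    (measure_mono interior_subset)).ne'

/-- `SymAff` in terms of the centred sections. -/
theorem symAff_iff {K : Set (ℂ × ℝ)} (hK : Body3 K) (φ : ℝ) : SymAff K φ ↔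
    (∀ h ∈ Hts K, SameX (Cq K h) (ng (Cq K h)) φ) ∧
      ∃ c₀ c₁ : ℝ, ∀ h ∈ Hts K, tc φ (cen (sec K h)) = c₀ + c₁ * h := by
  constructor
  · rintro ⟨c₀, c₁, h⟩
    have h1 : ∀ y ∈ Hts K, tc φ (cen (sec K y)) = c₀ + c₁ * y := fun y hy =>
      tc_cen_of_symm (compact_sec hK y) (vol_sec_pos hK hy) (h y hy)
    refine ⟨fun y hy => ?_, c₀, c₁, h1⟩
    rw [sameX_ng_iff (body_Cq hK hy).cpt]
    intro t
    unfold Cq
    rw [xr_tr, xr_tr, h1 y hy]
    have := h y hy t
    rw [show t + (c₀ + c₁ * y) = c₀ + c₁ * y + t by ring,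
      show -t + (c₀ + c₁ * y) = c₀ + c₁ * y - t by ring]
    exact this
  · rintro ⟨h, c₀, c₁, h1⟩
    refine ⟨c₀, c₁, fun y hy t => ?_⟩
    have h2 := (sameX_ng_iff (body_Cq hK hy).cpt φ).1 (h y hy) t
    unfold Cq at h2
    rw [xr_tr, xr_tr, h1 y hy] at h2
    rw [show c₀ + c₁ * y + t = t + (c₀ + c₁ * y) by ring,
      show c₀ + c₁ * y - t = -t + (c₀ + c₁ * y) by ring]
    exact h2

lemma isOpen_Hts (K : Set (ℂ × ℝ)) : IsOpen (Hts K) := by
  have : Hts K = Prod.snd '' interior K := by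
    ext h
    simp only [Hts, mem_ofPred_eq, mem_image, Prod.exists, exists_eq_right]
  rw [this]
  exact isOpenMap_snd _ isOpen_interior

lemma continuous_tc_ang (z : ℂ) : Continuous fun φ : ℝ => tc φ z := by
  unfold tc; fun_prop

end S17

open S17 in
theorem t_sac (sxc : SXCStmt) : SACStmt := by
  intro K hK
  obtain ⟨⟨z, h₁⟩, hz⟩ := hK.ne
  have hh₁ : h₁ ∈ Hts K := ⟨z, hz⟩
  obtain ⟨h₂, hh₂, hne⟩ : ∃ h₂ ∈ Hts K, h₂ ≠ h₁ := by
    have h3 := (isOpen_Hts K).mem_nhds hh₁
    obtain ⟨ε, hε, hb⟩ := Metric.mem_nhds_iff.1 h3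
    refine ⟨h₁ + ε / 2, hb ?_, by linarith⟩
    rw [Metric.mem_ball, Real.dist_eq]
    rw [abs_lt]
    constructor <;> linarith
  have hset : {φ : ℝ | SymAff K φ} = (⋂ h ∈ Hts K, {φ | SameX (Cq K h) (ng (Cq K h)) φ}) ∩
      ⋂ h ∈ Hts K, {φ | (h₂ - h₁) * (tc φ (cen (sec K h)) - tc φ (cen (sec K h₁))) =
        (h - h₁) * (tc φ (cen (sec K h₂)) - tc φ (cen (sec K h₁)))} := by
    ext φ
    simp only [mem_ofPred_eq, mem_inter_iff, mem_iInter]
    rw [symAff_iff hK]
    refine and_congr_right fun _ => ⟨?_, fun h => ?_⟩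
    · rintro ⟨c₀, c₁, h⟩ y hy
      rw [h y hy, h h₁ hh₁, h h₂ hh₂]
      ring
    · refine ⟨tc φ (cen (sec K h₁)) -
        (tc φ (cen (sec K h₂)) - tc φ (cen (sec K h₁))) / (h₂ - h₁) * h₁,
        (tc φ (cen (sec K h₂)) - tc φ (cen (sec K h₁))) / (h₂ - h₁), fun y hy => ?_⟩
      have h3 := h y hy
      have h4 : h₂ - h₁ ≠ 0 := sub_ne_zero.2 hne
      field_simp
      linear_combination h3
  rw [hset]
  refine IsClosed.inter (isClosed_biInter fun h hh => ?_) (isClosed_biInter fun h hh => ?_)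
  · refine IsSeqClosed.isClosed fun x p hx hp => ?_
    have hB := body_Cq hK hh
    have hlim : ∀ D : Set ℂ, BLim (fun _ => D) D := by
      intro D
      rw [BLim, Metric.tendstoUniformly_iff]
      intro ε hε
      exact Eventually.of_forall fun _ α => by simpa using hε
    exact sxc (fun _ => Cq K h) (fun _ => ng (Cq K h)) _ _ x p (fun _ => hB)
      (fun _ => body_ng hB) hB (body_ng hB) (hlim _) (hlim _) hp hx
  · exact isClosed_eq
      (continuous_const.mul ((continuous_tc_ang _).sub (continuous_tc_ang _)))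
      (continuous_const.mul ((continuous_tc_ang _).sub (continuous_tc_ang _)))

end Pool.XR2
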