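import Pool.Agent.H17.XR2.TPA

/-!
# Project XR2, row TAC: continuity of the upper boundary point
-/

set_option autoImplicit false

open MeasureTheory Set Filter Topology Metric
open scoped Real ENNReal

namespace Pool.XR2

open Pool.Agent.H45.XR

namespace S17

/-- Uniform convergence of the radial functions: `lam D ⊆ C n` eventually, in the interior. -/
lemma blim_lt {C : ℕ → Set ℂ} {D : Set ℂ} (hD : Body D) (h : BLim C D) {lam : ℝ}
    (h1 : lam < 1) : ∀ᶠ n in atTop, ∀ α, lam * rad D α < rad (C n) α := by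
  obtain ⟨r, hr, hrad⟩ := A2.rad_ge hD
  have h2 := Metric.tendstoUniformly_iff.1 h ((1 - lam) * r) (by nlinarith)
  filter_upwards [h2] with n hn α
  have h3 := hn α
  rw [Real.dist_eq, abs_lt] at h3
  have h4 : (1 - lam) * r ≤ (1 - lam) * rad D α :=
    mul_le_mul_of_nonneg_left (hrad α) (by linarith)
  linarith [h3.2]

/-- Interior points of the limit are interior points. -/
lemma blim_mem {C : ℕ → Set ℂ} {D : Set ℂ} (hC : ∀ n, Body (C n)) (hD : Body D)
    (h : BLim C D) {z : ℕ → ℂ} {z' : ℂ} (hz : Tendsto z atTop (𝓝 z')) (hi : z' ∈ interior D) :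
    ∀ᶠ n in atTop, z n ∈ interior (C n) := by
  have h0 : Tendsto (fun lam : ℝ => (lam⁻¹ : ℂ) * z') (𝓝[<] 1) (𝓝 z') := by
    have h1 : ContinuousAt (fun lam : ℝ => ((lam⁻¹ : ℝ) : ℂ) * z') 1 := by
      have : ContinuousAt (fun lam : ℝ => lam⁻¹) 1 := continuousAt_inv₀ one_ne_zero
      have h2 : ContinuousAt (fun lam : ℝ => ((lam⁻¹ : ℝ) : ℂ)) 1 :=
        Complex.continuous_ofReal.continuousAt.comp this
      exact h2.mul continuousAt_const
    have h2 : Tendsto (fun lam : ℝ => ((lam⁻¹ : ℝ) : ℂ) * z') (𝓝[<] 1) (𝓝 z') := by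
      have := h1.tendsto.mono_left (nhdsWithin_le_nhds (s := Iio 1))
      simpa using this
    simpa using h2
  have h1 : ∀ᶠ lam : ℝ in 𝓝[<] 1, (lam⁻¹ : ℂ) * z' ∈ interior D :=
    h0.eventually (isOpen_interior.mem_nhds hi)
  have h2 : ∀ᶠ lam : ℝ in 𝓝[<] 1, lam < 1 := self_mem_nhdsWithin
  have h3 : ∀ᶠ lam : ℝ in 𝓝[<] (1 : ℝ), 0 < lam :=
    (eventually_gt_nhds one_pos).filter_mono nhdsWithin_le_nhds
  obtain ⟨lam, ⟨hl1, hl2⟩, hl3⟩ := ((h1.and h2).and h3).exists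
  have h4 : Tendsto (fun n => (lam⁻¹ : ℂ) * z n) atTop (𝓝 ((lam⁻¹ : ℂ) * z')) :=
    tendsto_const_nhds.mul hz
  filter_upwards [h4.eventually (isOpen_interior.mem_nhds hl1), blim_lt hD h hl2] with n hn hn'
  obtain ⟨θ, s, hs0, hs1, hs2, hs3⟩ := B3.polar hD (interior_subset hn)
  have hs4 := hs3 hn
  have h5 : z n = ((lam * s : ℝ) : ℂ) * e θ := by
    have h6 : (lam : ℂ) ≠ 0 := by exact_mod_cast hl3.ne'
    have h7 : z n = (lam : ℂ) * ((lam⁻¹ : ℂ) * z n) := by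
      field_simp
    rw [h7, hs2]
    push_cast
    ring
  rw [h5, mem_interior_iff_lt_rad (hC n) θ (by positivity)]
  exact lt_trans (mul_lt_mul_of_pos_left hs4 hl3) (hn' θ)

lemma blim_comp {C : ℕ → Set ℂ} {D : Set ℂ} (h : BLim C D) {σ : ℕ → ℕ} (hσ : StrictMono σ) :
    BLim (fun n => C (σ n)) D := by
  rw [BLim, Metric.tendstoUniformly_iff] at h ⊢
  intro ε hε
  exact hσ.tendsto_atTop.eventually (h ε hε)

lemma blim_tc {C : ℕ → Set ℂ} {D : Set ℂ} (hD : Body D) (h : BLim C D) {φ : ℕ → ℝ} {ψ : ℝ}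
    (hφ : Tendsto φ atTop (𝓝 ψ)) {x : ℕ → ℝ} {y : ℝ} (hx : Tendsto x atTop (𝓝 y)) :
    Tendsto (fun n => tc (φ n) (pt (C n) (x n))) atTop (𝓝 (tc ψ (pt D y))) := by
  have h1 : Tendsto (fun n => rad (C n) (x n)) atTop (𝓝 (rad D y)) :=
    h.tendsto_comp (rad_cont hD).continuousAt hx
  have h2 : Tendsto (fun n => Real.sin (x n - φ n)) atTop (𝓝 (Real.sin (y - ψ))) :=
    (Real.continuous_sin.tendsto _).comp (hx.sub hφ)
  simp only [Pool.Agent.H45.XR.tc_pt]
  exact h1.mul h2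

end S17

open S17 in
theorem t_tac (flx : FLXStmt) (flb : FLBStmt) (flc : FLCStmt) : TACStmt := by
  intro C D φ t t' hC hS hD hSD hlim ht hz
  have tpa := t_tpa flx
  obtain ⟨z, hz1, hz2⟩ := hz
  obtain ⟨u1, u2, u3, u4⟩ := tpa D φ t' hD hSD ⟨z, hz1, hz2⟩
  have hI : tc φ (Complex.I * e φ) = 1 := by
    simp only [tc, Complex.mul_im, Complex.mul_re, Complex.I_re, Complex.I_im, e_re, e_im]
    have := Real.sin_sq_add_cos_sq φ
    nlinarith
  -- interior levels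
  have hint : ∀ᶠ n in atTop, ∃ w ∈ interior (C n), tc φ w = t n := by
    have h1 : Tendsto (fun n => z + ((t n - t' : ℝ) : ℂ) * (Complex.I * e φ)) atTop (𝓝 z) := by
      have h2 : Tendsto (fun n => t n - t') atTop (𝓝 0) := by
        simpa using ht.sub_const t'
      have h3 : Tendsto (fun n => ((t n - t' : ℝ) : ℂ)) atTop (𝓝 ((0 : ℝ) : ℂ)) :=
        (Complex.continuous_ofReal.tendsto _).comp h2
      have h4 := (h3.mul_const (Complex.I * e φ)).const_add z
      simpa using h4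
    filter_upwards [blim_mem hC hD hlim h1 hz1] with n hn
    refine ⟨_, hn, ?_⟩
    rw [tc_add, tc_mul, hI, hz2]
    ring
  have hrange : ∀ᶠ n in atTop, tpA (C n) φ (t n) ∈ Icc (φ - π) (φ + π) := by
    filter_upwards [hint] with n hn
    obtain ⟨a1, a2, -, -⟩ := tpa (C n) φ (t n) (hC n) (hS n) hn
    obtain ⟨hF, -⟩ := flx (C n) φ (hC n) (hS n)
    obtain ⟨r, hr1, hr2, hr, -⟩ := hF.rt
    obtain ⟨l, hl1, hl2, hl, -⟩ := hF.lt
    obtain ⟨b1, b2⟩ := top_range hF hr hl a1 a2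
    exact ⟨by linarith, by linarith⟩
  refine IsCompact.tendsto_nhds_of_unique_mapClusterPt isCompact_Icc hrange ?_
  intro y' _ hy'
  obtain ⟨σ, hσ, hσt⟩ := hy'.tendsto_subseq
  have hl := blim_comp hlim hσ
  have e1 : Tendsto (fun n => tc φ (pt (C (σ n)) (tpA (C (σ n)) φ (t (σ n))))) atTop
      (𝓝 (tc φ (pt D y'))) := blim_tc hD hl tendsto_const_nhds hσt
  have e2 : Tendsto (fun n => fl (C (σ n)) φ (tpA (C (σ n)) φ (t (σ n)))) atTop
      (𝓝 (fl D φ y')) :=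
    flc (fun n => C (σ n)) D (fun _ => φ) φ _ y' (fun n => hC _) (fun n => hS _) hD hSD hl
      tendsto_const_nhds hσt
  have hev := hσ.tendsto_atTop.eventually hint
  have e3 : tc φ (pt D y') = t' := by
    refine tendsto_nhds_unique e1 ?_
    refine Tendsto.congr' ?_ (ht.comp hσ.tendsto_atTop)
    filter_upwards [hev] with n hn
    exact (tpa (C (σ n)) φ (t (σ n)) (hC _) (hS _) hn).2.2.1.symm
  have e4 : fl D φ y' ≤ y' := by
    refine le_of_tendsto_of_tendsto e2 hσt ?_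
    filter_upwards [hev] with n hn
    exact (tpa (C (σ n)) φ (t (σ n)) (hC _) (hS _) hn).1.le
  have e5 : y' ≤ fl D φ y' + 2 * π := by
    refine le_of_tendsto_of_tendsto hσt (e2.add_const _) ?_
    filter_upwards [hev] with n hn
    exact (tpa (C (σ n)) φ (t (σ n)) (hC _) (hS _) hn).2.1.le
  have hnf := not_fx_of_interior flb hD hSD (θ := y') ⟨z, hz1, hz2.trans e3.symm⟩
  refine u4 y' ?_ ?_ e3
  · refine lt_of_le_of_ne e4 fun hh => hnf ⟨0, ?_⟩
    rw [hh]; simp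
  · refine lt_of_le_of_ne e5 fun hh => hnf ⟨-1, ?_⟩
    push_cast
    linarith

end Pool.XR2
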