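import Pool.Agent.H52.XR2.S1
import Pool.Agent.H20.XR2.SLP
import Pool.Agent.H78.XR2.INB

/-!
# Project XR2, row TLC: steep mates, symmetric volumes
-/

set_option autoImplicit false

open MeasureTheory Set Filter Topology Metric
open scoped Real ENNReal

namespace Pool.XR2

open Pool.Agent.H45.XR

namespace S17

/-- Two half planes cut out of a compact set, given by close functions. -/
lemma vol_close {C : Set ℂ} (hc : IsCompact C) {R : ℝ} (hR : 0 ≤ R)
    {f g : ℂ → ℝ} {t η : ℝ} (hη : 0 ≤ η)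
    (hfg : ∀ z ∈ C, |f z - g z| ≤ η)
    (hs : (volume (C ∩ {z | g z ∈ Icc (t - η) (t + η)})).toReal ≤ 2 * R * (2 * η)) :
    |(volume (C ∩ {z | f z ≤ t})).toReal - (volume (C ∩ {z | g z ≤ t})).toReal| ≤ 4 * R * η := by
  have hfin : ∀ S : Set ℂ, volume (C ∩ S) ≠ ⊤ := fun S =>
    (lt_of_le_of_lt (measure_mono inter_subset_left) hc.measure_lt_top).ne
  have h1 : C ∩ {z | f z ≤ t} ⊆ (C ∩ {z | g z ≤ t}) ∪ (C ∩ {z | g z ∈ Icc (t - η) (t + η)}) := by
    rintro z ⟨hz, hf⟩
    have h2 := abs_le.1 (hfg z hz)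
    simp only [mem_ofPred_eq] at hf
    by_cases hg : g z ≤ t
    · exact Or.inl ⟨hz, hg⟩
    · push Not at hg
      refine Or.inr ⟨hz, ?_, ?_⟩ <;> linarith [h2.1, h2.2]
  have h2 : C ∩ {z | g z ≤ t} ⊆ (C ∩ {z | f z ≤ t}) ∪ (C ∩ {z | g z ∈ Icc (t - η) (t + η)}) := by
    rintro z ⟨hz, hg⟩
    have h2 := abs_le.1 (hfg z hz)
    simp only [mem_ofPred_eq] at hg
    by_cases hf : f z ≤ t
    · exact Or.inl ⟨hz, hf⟩
    · push Not at hf
      refine Or.inr ⟨hz, ?_, ?_⟩ <;> linarith [h2.1, h2.2]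
  have h3 : (volume (C ∩ {z | f z ≤ t})).toReal ≤ (volume (C ∩ {z | g z ≤ t})).toReal +
      (volume (C ∩ {z | g z ∈ Icc (t - η) (t + η)})).toReal := by
    rw [← ENNReal.toReal_add (hfin _) (hfin _)]
    exact ENNReal.toReal_mono (ENNReal.add_ne_top.2 ⟨hfin _, hfin _⟩)
      ((measure_mono h1).trans (measure_union_le _ _))
  have h4 : (volume (C ∩ {z | g z ≤ t})).toReal ≤ (volume (C ∩ {z | f z ≤ t})).toReal +
      (volume (C ∩ {z | g z ∈ Icc (t - η) (t + η)})).toReal := by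
    rw [← ENNReal.toReal_add (hfin _) (hfin _)]
    exact ENNReal.toReal_mono (ENNReal.add_ne_top.2 ⟨hfin _, hfin _⟩)
      ((measure_mono h2).trans (measure_union_le _ _))
  rw [abs_le]
  constructor <;> linarith

end S17

open S17 in
theorem t_tlc : TLCStmt := by
  intro r R A ε hr hε
  set M : ℝ := |R| + |A| + 1 with hM
  have hM1 : 1 ≤ M := by
    have := abs_nonneg R
    have := abs_nonneg A
    linarith
  have hMR : |R| ≤ M := by
    have := abs_nonneg A
    linarith
  have hMA : |A| ≤ M := by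
    have := abs_nonneg R
    linarith
  have hM0 : 0 < M := by linarith
  refine ⟨min 1 (ε / (16 * M * M)), by positivity, ?_⟩
  intro C C' φ θ hB h0 hP hθ hst t
  have hθ0 : 0 < θ := by linarith [hP.h01]
  have hθ1 : θ < 1 := hθ.trans_le (min_le_left _ _)
  have hθε : θ < ε / (16 * M * M) := hθ.trans_le (min_le_right _ _)
  have hR0 : 0 ≤ R := by
    have h1 := hB.out (interior_subset hB.body.zero)
    rw [mem_closedBall, dist_self] at h1
    exact h1
  have hRM : R ≤ M := (le_abs_self R).trans hMR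
  have hcos : 1 - Real.cos θ ≤ θ := by
    have h1 := Real.one_sub_sq_div_two_le_cos (x := θ)
    nlinarith
  have hcos1 := Real.cos_le_one θ
  have hsin : Real.sin θ ≤ θ := Real.sin_le hθ0.le
  have hsin0 : 0 < Real.sin θ := Real.sin_pos_of_pos_of_lt_pi hθ0 (by linarith [Real.pi_gt_three])
  have hfin : ∀ (D : Set ℂ), IsCompact D → ∀ S : Set ℂ, volume (D ∩ S) ≠ ⊤ := fun D hD S =>
    (lt_of_le_of_lt (measure_mono inter_subset_left) hD.measure_lt_top).ne
  -- the first comparison, on C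
  have hη : (0 : ℝ) ≤ 2 * M * θ := by positivity
  have a1 : ∀ z ∈ C, |tc (φ + θ) z - tc φ z| ≤ 2 * M * θ := by
    intro z hz
    have hz1 := hB.out hz
    rw [mem_closedBall, dist_zero_right] at hz1
    have h1 := (SLP.abs_tc_le φ z).trans hz1
    have h2 := (SLP.abs_yc_le φ z).trans hz1
    rw [SLP.tc_rot']
    have h3 : Real.cos θ * tc φ z - Real.sin θ * yc φ z - tc φ z =
        -((1 - Real.cos θ) * tc φ z + Real.sin θ * yc φ z) := by ring
    rw [h3, abs_neg]
    calc |(1 - Real.cos θ) * tc φ z + Real.sin θ * yc φ z|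
        ≤ |(1 - Real.cos θ) * tc φ z| + |Real.sin θ * yc φ z| := abs_add_le _ _
      _ = (1 - Real.cos θ) * |tc φ z| + Real.sin θ * |yc φ z| := by
          rw [abs_mul, abs_mul, abs_of_nonneg (sub_nonneg.2 hcos1), abs_of_pos hsin0]
      _ ≤ θ * M + θ * M := by
          refine add_le_add (mul_le_mul hcos (h1.trans hRM) (abs_nonneg _) hθ0.le)
            (mul_le_mul hsin (h2.trans hRM) (abs_nonneg _) hθ0.le)
      _ = 2 * M * θ := by ring
  have s1 := Inb78.strip hB.body.cpt hR0 hB.out φ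
    (a := t - 2 * M * θ) (b := t + 2 * M * θ) (by linarith)
  have b1 := vol_close hB.body.cpt (R := R) hR0 (f := tc (φ + θ)) (g := tc φ) (t := t) hη a1
    (s1.trans_eq (by ring))
  -- the second comparison, on C'
  have a2 : ∀ z ∈ C', |tc (φ + θ) z - (-tc φ z)| ≤ 2 * M * θ := by
    intro z hz
    have h1 := SLP.tc_bd hP.b' hB.out hP.x0 hz
    have h2 := hst z hz
    rw [SLP.tc_rot']
    have h3 : Real.cos θ * tc φ z - Real.sin θ * yc φ z - -tc φ z =
        (1 - Real.cos θ) * tc φ z -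
          Real.sin θ * (yc φ z - 2 * (Real.cos θ / Real.sin θ) * tc φ z) := by
      field_simp
      ring
    rw [h3]
    calc |(1 - Real.cos θ) * tc φ z -
          Real.sin θ * (yc φ z - 2 * (Real.cos θ / Real.sin θ) * tc φ z)|
        ≤ |(1 - Real.cos θ) * tc φ z| +
          |Real.sin θ * (yc φ z - 2 * (Real.cos θ / Real.sin θ) * tc φ z)| := abs_sub _ _
      _ = (1 - Real.cos θ) * |tc φ z| +
          Real.sin θ * |yc φ z - 2 * (Real.cos θ / Real.sin θ) * tc φ z| := by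
          rw [abs_mul, abs_mul, abs_of_nonneg (sub_nonneg.2 hcos1), abs_of_pos hsin0]
      _ ≤ θ * M + θ * M := by
          refine add_le_add (mul_le_mul hcos (h1.trans hRM) (abs_nonneg _) hθ0.le)
            (mul_le_mul hsin (h2.trans ((le_abs_self A).trans hMA)) (abs_nonneg _) hθ0.le)
      _ = 2 * M * θ := by ring
  have hseteq : ∀ D : Set ℂ, D ∩ {z | -tc φ z ∈ Icc (t - 2 * M * θ) (t + 2 * M * θ)} =
      D ∩ {z | tc φ z ∈ Icc (-t - 2 * M * θ) (-t + 2 * M * θ)} := by
    intro D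
    ext z
    simp only [mem_inter_iff, mem_ofPred_eq, mem_Icc]
    constructor
    · rintro ⟨hz, h1, h2⟩
      exact ⟨hz, by linarith, by linarith⟩
    · rintro ⟨hz, h1, h2⟩
      exact ⟨hz, by linarith, by linarith⟩
  have s2 := Inb78.strip hB.body.cpt hR0 hB.out φ
    (a := -t - 2 * M * θ) (b := -t + 2 * M * θ) (by linarith)
  rw [sameX_tc hB.body.cpt hP.b'.cpt hP.x0 measurableSet_Icc, ← hseteq] at s2
  have b2 := vol_close hP.b'.cpt (R := R) hR0 (f := tc (φ + θ)) (g := fun z => -tc φ z)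
    (t := t) hη a2 (s2.trans_eq (by ring))
  -- equalities
  have e1 : volume (C ∩ {z | tc (φ + θ) z ≤ t}) = volume (C' ∩ {z | tc (φ + θ) z ≤ t}) := by
    have := sameX_tc hB.body.cpt hP.b'.cpt hP.x1 (T := Iic t) measurableSet_Iic
    simpa only [mem_Iic] using this
  have e2 : volume (C ∩ {z | -t ≤ tc φ z}) = volume (C' ∩ {z | -t ≤ tc φ z}) := by
    have := sameX_tc hB.body.cpt hP.b'.cpt hP.x0 (T := Ici (-t)) measurableSet_Ici
    simpa only [mem_Ici] using this
  have e3 : C' ∩ {z | -tc φ z ≤ t} = C' ∩ {z | -t ≤ tc φ z} := by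
    ext z
    simp only [mem_inter_iff, mem_ofPred_eq]
    constructor
    · rintro ⟨hz, h1⟩
      exact ⟨hz, by linarith⟩
    · rintro ⟨hz, h1⟩
      exact ⟨hz, by linarith⟩
  rw [e3, ← e2] at b2
  rw [e1] at b1
  have hfinal : 4 * R * (2 * M * θ) + 4 * R * (2 * M * θ) ≤ ε := by
    have h1 : θ * (16 * M * M) < ε := by
      rwa [lt_div_iff₀ (by positivity)] at hθε
    have h2 : 4 * R * (2 * M * θ) + 4 * R * (2 * M * θ) = 16 * R * M * θ := by ring
    have h3 : 16 * R * M * θ ≤ 16 * M * M * θ := by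
      have : 0 ≤ 16 * M * θ := by positivity
      nlinarith
    linarith
  rw [abs_le] at b1 b2 ⊢
  constructor <;> linarith [b1.1, b1.2, b2.1, b2.2]

end Pool.XR2
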