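import Pool.Agent.H52.XR2.S1
import Pool.Agent.H52.XR2.S2
import Pool.Agent.H7.XR.A2
import Pool.Agent.H65.XR.B3

/-!
# Project XR2, rows TPA and TAC: the upper boundary point on a line and its continuity
-/

set_option autoImplicit false

open MeasureTheory Set Filter Topology Metric
open scoped Real ENNReal

namespace Pool.XR2

open Pool.Agent.H45.XR

namespace S17

/-- A point on an interior level is not fixed by the flip. -/
lemma not_fx_of_interior (flb : FLBStmt) {C : Set ℂ} {φ : ℝ} (hC : Body C) (hS : NoSeg C φ)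
    {θ : ℝ} (h : ∃ z ∈ interior C, tc φ z = tc φ (pt C θ)) : ¬ Fx (fl C φ) θ := by
  intro hf
  obtain ⟨z, hz, hzt⟩ := h
  have h1 := ((flb C φ hC hS).2.1 θ).1 hf
  have h2 := eq_add_of_tc_eq hzt
  have h3 := h1 (yc φ z - yc φ (pt C θ)) (by rw [← h2]; exact interior_subset hz)
  rw [h3] at h2
  apply pt_notMem_interior hC θ
  have h4 : z = pt C θ := by rw [h2]; push_cast; ring
  rw [← h4]
  exact hz

/-- Top angles lie between the two tips. -/
lemma top_range {C : Set ℂ} {φ r l θ : ℝ} {F : ℝ → ℝ} (hF : IsFlip C φ F) (hr : F r = r)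
    (hl : F l = l - 2 * π) (h1 : F θ < θ) (h2 : θ < F θ + 2 * π) : r < θ ∧ θ < l := by
  constructor
  · by_contra h
    push Not at h
    have h3 := hF.anti.antitone h
    linarith
  · by_contra h
    push Not at h
    have h3 := hF.anti.antitone h
    linarith

lemma range_top {C : Set ℂ} {φ r l θ : ℝ} {F : ℝ → ℝ} (hF : IsFlip C φ F) (hr : F r = r)
    (hl : F l = l - 2 * π) (h1 : r < θ) (h2 : θ < l) :
    F θ < θ ∧ θ < F θ + 2 * π ∧ l - 2 * π < F θ ∧ F θ < r := by
  have h3 := hF.anti h1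
  have h4 := hF.anti h2
  refine ⟨by linarith, by linarith, by linarith, by linarith⟩

theorem top_exists (flx : FLXStmt) {C : Set ℂ} {φ t : ℝ} (hC : Body C) (hS : NoSeg C φ)
    (h : ∃ z ∈ interior C, tc φ z = t) :
    ∃ θ, fl C φ θ < θ ∧ θ < fl C φ θ + 2 * π ∧ tc φ (pt C θ) = t := by
  obtain ⟨hF, -⟩ := flx C φ hC hS
  obtain ⟨r, hr1, hr2, hr, hrm⟩ := hF.rt
  obtain ⟨l, hl1, hl2, hl, hlm⟩ := hF.lt
  obtain ⟨z, hz, rfl⟩ := h
  have hrl : r ≤ l := by linarith
  have hmid : tc φ z ∈ Icc (tc φ (pt C r)) (tc φ (pt C l)) :=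
    ⟨hrm z (interior_subset hz), hlm z (interior_subset hz)⟩
  obtain ⟨θ, hθ, hθt⟩ := intermediate_value_Icc hrl (B3.continuous_T hC φ).continuousOn hmid
  obtain ⟨δ, hδ, -, hd⟩ := B3.push (d := Complex.I * e φ) hz
  have hI : tc φ (Complex.I * e φ) = 1 := by
    simp only [tc, Complex.mul_im, Complex.mul_re, Complex.I_re, Complex.I_im, e_re, e_im]
    have := Real.sin_sq_add_cos_sq φ
    nlinarith
  have hlt : tc φ (pt C r) < tc φ z := by
    have := hrm _ (interior_subset (hd (-δ) (by rw [abs_neg, abs_of_pos hδ])))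
    rw [tc_add, tc_mul, hI] at this
    linarith
  have hgt : tc φ z < tc φ (pt C l) := by
    have := hlm _ (interior_subset (hd δ (by rw [abs_of_pos hδ])))
    rw [tc_add, tc_mul, hI] at this
    linarith
  have hrθ : r < θ := by
    rcases lt_or_eq_of_le hθ.1 with h1 | h1
    · exact h1
    · exfalso; rw [← h1] at hθt; simp only at hθt; linarith
  have hθl : θ < l := by
    rcases lt_or_eq_of_le hθ.2 with h1 | h1
    · exact h1
    · exfalso; rw [h1] at hθt; simp only at hθt; linarith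
  obtain ⟨h1, h2, -, -⟩ := range_top hF hr hl hrθ hθl
  exact ⟨θ, h1, h2, hθt⟩

theorem top_unique (flx : FLXStmt) {C : Set ℂ} {φ t : ℝ} (hC : Body C) (hS : NoSeg C φ)
    (h : ∃ z ∈ interior C, tc φ z = t) {θ θ' : ℝ}
    (h1 : fl C φ θ < θ) (h2 : θ < fl C φ θ + 2 * π) (h3 : tc φ (pt C θ) = t)
    (h1' : fl C φ θ' < θ') (h2' : θ' < fl C φ θ' + 2 * π) (h3' : tc φ (pt C θ') = t) : θ = θ' := by
  obtain ⟨hF, -⟩ := flx C φ hC hS
  obtain ⟨r, hr1, hr2, hr, hrm⟩ := hF.rt
  obtain ⟨l, hl1, hl2, hl, hlm⟩ := hF.lt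
  obtain ⟨z, hz, hzt⟩ := h
  obtain ⟨a1, a2⟩ := top_range hF hr hl h1 h2
  obtain ⟨b1, b2⟩ := top_range hF hr hl h1' h2'
  obtain ⟨-, -, c1, c2⟩ := range_top hF hr hl a1 a2
  by_contra hne
  have hpi := Real.pi_pos
  refine B3.three_pts hC (pt_mem hC θ) (pt_mem hC θ') (pt_mem hC (fl C φ θ))
    (pt_notMem_interior hC _) (pt_notMem_interior hC _) (pt_notMem_interior hC _) hz
    (h3.trans hzt.symm) (h3'.trans hzt.symm) ((hF.line θ).trans (h3.trans hzt.symm)) ?_ ?_ ?_
  · rcases lt_or_gt_of_ne hne with hlt | hlt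
    · exact B3.pt_ne hC hlt (by linarith)
    · exact (B3.pt_ne hC hlt (by linarith)).symm
  · exact (B3.pt_ne hC h1 h2).symm
  · exact (B3.pt_ne hC (by linarith) (by linarith)).symm

end S17

open S17 in
theorem t_tpa (flx : FLXStmt) : TPAStmt := by
  intro C φ t hC hS h
  have hex := top_exists flx hC hS h
  have hdef : tpA C φ t = hex.choose := by
    unfold tpA
    rw [dif_pos hex]
  obtain ⟨h1, h2, h3⟩ := hex.choose_spec
  rw [← hdef] at h1 h2 h3
  exact ⟨h1, h2, h3, fun θ a b c => top_unique flx hC hS h a b c h1 h2 h3⟩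

end Pool.XR2
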