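import Pool.Agent.H17.XR2.TLC

/-!
# Project XR2, row TWL: the dichotomy for close directions
-/

set_option autoImplicit false

open MeasureTheory Set Filter Topology Metric
open scoped Real ENNReal

namespace Pool.XR2

open Pool.Agent.H45.XR

namespace S17

lemma theta_cot {θ : ℝ} (h0 : 0 < θ) (h1 : θ < 1) :
    |1 - θ * (Real.cos θ / Real.sin θ)| ≤ 2 * θ := by
  have hpi := Real.pi_gt_three
  have hs0 : 0 < Real.sin θ := Real.sin_pos_of_pos_of_lt_pi h0 (by linarith)
  have hs1 : Real.sin θ ≤ θ := Real.sin_le h0.le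
  have hs2 : 2 / π * θ ≤ Real.sin θ := Real.mul_le_sin h0.le (by linarith)
  have hc1 := Real.cos_le_one θ
  have hc2 : 1 - Real.cos θ ≤ θ ^ 2 / 2 := by
    have := Real.one_sub_sq_div_two_le_cos (x := θ)
    linarith
  have h2 : θ - θ ^ 3 / 6 < Real.sin θ := Real.sin_gt_sub_cube h0
  have h3 : 1 - θ * (Real.cos θ / Real.sin θ) =
      (Real.sin θ - θ * Real.cos θ) / Real.sin θ := by
    field_simp
  rw [h3, abs_div, abs_of_pos hs0, div_le_iff₀ hs0, abs_le]
  have h4 : 0 ≤ θ * (1 - Real.cos θ) := mul_nonneg h0.le (by linarith)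
  have h5 : θ * (1 - Real.cos θ) ≤ θ ^ 3 / 2 := by nlinarith
  have h6 : θ ^ 3 ≤ θ := by nlinarith [pow_pos h0 2, mul_pos h0 h0]
  have h7 : θ ^ 3 ≤ θ ^ 2 := by nlinarith [pow_pos h0 2]
  have h8 : θ / 2 ≤ Real.sin θ := by nlinarith
  constructor
  · nlinarith
  · nlinarith

end S17

open S17 in
theorem t_twl (slp : SLPStmt) (tla : TLAStmt) (tlb : TLBStmt) (tlc : TLCStmt) (smr : SMRStmt)
    (wfl : WFLStmt) : TWLStmt := by
  intro r R ε hr hε
  obtain ⟨A, hA, θ₁, hθ₁, hslp⟩ := slp r R hr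
  obtain ⟨θ₂, hθ₂, htla⟩ := tla r R A (min ε (r / 2)) hr (by positivity)
  obtain ⟨θ₃, hθ₃, htlb⟩ := tlb r R A ε hr hε
  obtain ⟨θ₄, hθ₄, htlc⟩ := tlc r R A ε hr hε
  set M : ℝ := |R| + 1 with hM
  have hM1 : 1 ≤ M := by
    have := abs_nonneg R
    linarith
  have hM0 : 0 < M := by linarith
  refine ⟨min (min (min θ₁ θ₂) (min θ₃ θ₄)) (min (min 1 (r / (400 * M)))
    (min (ε * r / (16 * M)) (ε / (A + 4 * M)))), by positivity, ?_⟩
  intro C C' φ θ hB h0 hP hθ
  have hθ0 : 0 < θ := by linarith [hP.h01]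
  have hR0 : 0 ≤ R := by
    have h1 := hB.out (interior_subset hB.body.zero)
    rw [mem_closedBall, dist_self] at h1
    exact h1
  have hRM : R ≤ M := by
    have := le_abs_self R
    linarith
  obtain ⟨hθa, hθb⟩ := lt_min_iff.1 hθ
  obtain ⟨hθc, hθd⟩ := lt_min_iff.1 hθa
  obtain ⟨h1, h2⟩ := lt_min_iff.1 hθc
  obtain ⟨h3, h4⟩ := lt_min_iff.1 hθd
  obtain ⟨hθe, hθf⟩ := lt_min_iff.1 hθb
  obtain ⟨h5, h6⟩ := lt_min_iff.1 hθe
  obtain ⟨h7, h8⟩ := lt_min_iff.1 hθf
  have hsin : Real.sin θ ≤ θ := Real.sin_le hθ0.le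
  have hsin0 : 0 < Real.sin θ := Real.sin_pos_of_pos_of_lt_pi hθ0 (by linarith [Real.pi_gt_three])
  rcases hslp C C' φ θ hB h0 hP h1 with hb | hst
  · left
    have hcl := htla C C' φ θ hB h0 hP h2 hb
    refine ⟨fun α => (hcl α).trans (min_le_left _ _), ?_⟩
    obtain ⟨hW, hW0, -⟩ := wfl C C' φ hB.body hP.b' hP.x0 hP.n0
    obtain ⟨-, hW1, -⟩ := wfl C C' (φ + θ) hB.body hP.b' hP.x1 hP.n1
    -- the intersection contains the ball of radius r / 2
    have hrr : ∀ α, r ≤ rad C α := by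
      intro α
      by_contra hlt
      push Not at hlt
      have hpos := rad_pos hB.body α
      have h9 : ((((rad C α + r) / 2 : ℝ)) : ℂ) * e α ∈ C := by
        apply hB.inn
        rw [mem_ball, dist_zero_right, norm_mul, norm_e, mul_one, Complex.norm_real,
          Real.norm_eq_abs, abs_of_pos (by linarith)]
        linarith
      rw [mem_iff_le_rad hB.body α (by linarith)] at h9
      linarith
    have hmemW : ∀ α s : ℝ, 0 ≤ s → s ≤ r / 2 → ((s : ℝ) : ℂ) * e α ∈ C ∩ C' := by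
      intro α s hs0 hs1
      refine ⟨(mem_iff_le_rad hB.body α hs0).2 (by linarith [hrr α]),
        (mem_iff_le_rad hP.b' α hs0).2 ?_⟩
      have h9 := (abs_le.1 ((hcl α).trans (min_le_right _ _))).1
      linarith [hrr α]
    have hDiam : ∀ p ∈ C ∩ C', ∀ q ∈ C ∩ C', ‖p - q‖ ≤ 2 * M := by
      intro p hp q hq
      have h9 := hB.out hp.1
      have h10 := hB.out hq.1
      rw [mem_closedBall, dist_zero_right] at h9 h10
      calc ‖p - q‖ ≤ ‖p‖ + ‖q‖ := norm_sub_le _ _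
        _ ≤ 2 * M := by linarith
    have hwid : ∃ p ∈ C ∩ C', ∃ q ∈ C ∩ C', r / 2 ≤ tc φ q - tc φ p := by
      refine ⟨_, hmemW (φ - π / 2) (r / 2) (by positivity) le_rfl, _,
        hmemW (φ + π / 2) (r / 2) (by positivity) le_rfl, ?_⟩
      rw [tc_mul, tc_mul, tc_e, tc_e]
      have e1 : φ + π / 2 - φ = π / 2 := by ring
      have e2 : φ - π / 2 - φ = -(π / 2) := by ring
      rw [e1, e2, Real.sin_neg, Real.sin_pi_div_two]
      linarith
    have h9 := smr (C ∩ C') φ θ (2 * M) (r / 2) hW hW0 hW1 hθ0 (by linarith [Real.pi_gt_three])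
      hDiam hwid (by positivity) (by
        have h10 : θ * (400 * M) < r := by rwa [lt_div_iff₀ (by positivity)] at h6
        have h11 : 100 * (2 * M) * Real.sin θ ≤ 100 * (2 * M) * θ :=
          mul_le_mul_of_nonneg_left hsin (by positivity)
        linarith)
    refine h9.trans ?_
    rw [div_le_iff₀ (by positivity)]
    have h10 : θ * (16 * M) < ε * r := by rwa [lt_div_iff₀ (by positivity)] at h7
    have h11 : 4 * (2 * M) * Real.sin θ ≤ 4 * (2 * M) * θ :=
      mul_le_mul_of_nonneg_left hsin (by positivity)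
    linarith
  · right
    refine ⟨htlb C C' φ θ hB h0 hP h3 hst, ?_, htlc C C' φ θ hB h0 hP h4 hst⟩
    intro z hz
    have h9 := SLP.tc_bd hP.b' hB.out hP.x0 hz
    have h10 := hst z hz
    have h11 := theta_cot hθ0 h5
    have h12 : θ * yc φ z - 2 * tc φ z = θ * (yc φ z - 2 * (Real.cos θ / Real.sin θ) * tc φ z) -
        2 * tc φ z * (1 - θ * (Real.cos θ / Real.sin θ)) := by ring
    rw [h12]
    calc |θ * (yc φ z - 2 * (Real.cos θ / Real.sin θ) * tc φ z) -
          2 * tc φ z * (1 - θ * (Real.cos θ / Real.sin θ))|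
        ≤ |θ * (yc φ z - 2 * (Real.cos θ / Real.sin θ) * tc φ z)| +
          |2 * tc φ z * (1 - θ * (Real.cos θ / Real.sin θ))| := abs_sub _ _
      _ = θ * |yc φ z - 2 * (Real.cos θ / Real.sin θ) * tc φ z| +
          2 * |tc φ z| * |1 - θ * (Real.cos θ / Real.sin θ)| := by
          rw [abs_mul, abs_mul, abs_mul, abs_of_pos hθ0, abs_of_pos (by norm_num : (0 : ℝ) < 2)]
      _ ≤ θ * A + 2 * M * (2 * θ) := by
          refine add_le_add (mul_le_mul_of_nonneg_left h10 hθ0.le) ?_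
          exact mul_le_mul (by linarith) h11 (abs_nonneg _) (by positivity)
      _ = θ * (A + 4 * M) := by ring
      _ ≤ ε := by
          rw [lt_div_iff₀ (by positivity)] at h8
          exact h8.le

end Pool.XR2
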