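import Pool.Agent.H52.XR2.S1
import Pool.Agent.H52.XR2.S2

/-!
# Project XR2, row XNH: countably many heights where the X-ray is not differentiable

`cdiff`, `cdiff_conc`: a convex (concave) function on an open set of reals is differentiable up to
countably many points.
-/

set_option autoImplicit false

open MeasureTheory Set Filter Topology Metric
open scoped Real ENNReal

namespace Pool.XR2

open Pool.Agent.H45.XR

namespace S17

/-- A convex function on an open set of reals is differentiable up to countably many points. -/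
theorem cdiff {S : Set ℝ} {f : ℝ → ℝ} (hS : IsOpen S) (hf : ConvexOn ℝ S f) :
    {x : ℝ | x ∈ S ∧ ¬ DifferentiableAt ℝ f x}.Countable := by
  have hlt : ∀ x ∈ {x : ℝ | x ∈ S ∧ ¬ DifferentiableAt ℝ f x},
      derivWithin f (Iio x) x < derivWithin f (Ioi x) x := by
    rintro x ⟨hx, hnd⟩
    have hxi : x ∈ interior S := by rwa [hS.interior_eq]
    refine lt_of_le_of_ne (hf.leftDeriv_le_rightDeriv_of_mem_interior hxi) fun heq => hnd ?_
    have h1 := hf.hasDerivWithinAt_rightDeriv_of_mem_interior hxi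
    have h2 := hf.hasDerivWithinAt_leftDeriv_of_mem_interior hxi
    rw [heq] at h2
    have h3 := (hasDerivWithinAt_Ioi_iff_Ici.1 h1).union (hasDerivWithinAt_Iio_iff_Iic.1 h2)
    rw [union_comm, Iic_union_Ici, hasDerivWithinAt_univ] at h3
    exact h3.differentiableAt
  choose! q hq using fun x (hx : x ∈ {x : ℝ | x ∈ S ∧ ¬ DifferentiableAt ℝ f x}) =>
    exists_rat_btwn (hlt x hx)
  have hmono : ∀ x ∈ {x : ℝ | x ∈ S ∧ ¬ DifferentiableAt ℝ f x},
      ∀ y ∈ {x : ℝ | x ∈ S ∧ ¬ DifferentiableAt ℝ f x}, x < y → (q x : ℝ) < q y := by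
    intro x hx y hy hxy
    have hxi : x ∈ interior S := by rw [hS.interior_eq]; exact hx.1
    have hyi : y ∈ interior S := by rw [hS.interior_eq]; exact hy.1
    calc (q x : ℝ) < derivWithin f (Ioi x) x := (hq x hx).2
      _ ≤ slope f x y := hf.rightDeriv_le_slope_of_mem_interior hxi hy.1 hxy
      _ ≤ derivWithin f (Iio y) y := hf.slope_le_leftDeriv_of_mem_interior hx.1 hyi hxy
      _ < q y := (hq y hy).1
  refine countable_of_injective_of_countable_image (f := q) ?_ (to_countable _)
  intro x hx y hy hxy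
  rcases lt_trichotomy x y with h | h | h
  · have := hmono x hx y hy h
    rw [hxy] at this
    exact absurd this (lt_irrefl _)
  · exact h
  · have := hmono y hy x hx h
    rw [hxy] at this
    exact absurd this (lt_irrefl _)

theorem cdiff_conc {S : Set ℝ} {f : ℝ → ℝ} (hS : IsOpen S) (hf : ConcaveOn ℝ S f) :
    {x : ℝ | x ∈ S ∧ ¬ DifferentiableAt ℝ f x}.Countable := by
  refine (cdiff hS hf.neg).mono ?_
  rintro x ⟨hx, hnd⟩
  refine ⟨hx, fun h => hnd ?_⟩
  have := h.neg
  simpa using this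

/-- A nonempty compact convex set of reals is an interval. -/
lemma exists_Icc {S : Set ℝ} (hc : IsCompact S) (hv : Convex ℝ S) (hne : S.Nonempty) :
    ∃ m M : ℝ, m ≤ M ∧ S = Icc m M := by
  obtain ⟨m, hm⟩ := hc.exists_isLeast hne
  obtain ⟨M, hM⟩ := hc.exists_isGreatest hne
  refine ⟨m, M, hm.2 hM.1, Subset.antisymm (fun x hx => ⟨hm.2 hx, hM.2 hx⟩) ?_⟩
  exact hv.ordConnected.out hm.1 hM.1

/-- Concavity of the length of the sections of a compact convex set along a line of lines. -/
lemma len_concave {V : Type*} [AddCommGroup V] [Module ℝ V]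
    {K : Set V} (hK : Convex ℝ K) (p : ℝ → V) (u : V)
    (hp : ∀ a b x y : ℝ, a + b = 1 → p (a * x + b * y) = a • p x + b • p y)
    {I : Set ℝ} (hI : Convex ℝ I) (hne : ∀ t ∈ I, {s : ℝ | p t + s • u ∈ K}.Nonempty)
    (hc : ∀ t ∈ I, IsCompact {s : ℝ | p t + s • u ∈ K}) :
    ConcaveOn ℝ I (fun t => (volume {s : ℝ | p t + s • u ∈ K}).toReal) := by
  refine ⟨hI, ?_⟩
  intro x hx y hy a b ha hb hab
  have hconv : ∀ t, Convex ℝ {s : ℝ | p t + s • u ∈ K} := by
    intro t s₁ hs₁ s₂ hs₂ a b ha hb hab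
    have h1 := hK hs₁ hs₂ ha hb hab
    simp only [mem_ofPred_eq, smul_eq_mul]
    convert h1 using 1
    calc p t + (a * s₁ + b * s₂) • u = (a + b) • p t + (a * s₁ + b * s₂) • u := by
          rw [hab, one_smul]
      _ = a • (p t + s₁ • u) + b • (p t + s₂ • u) := by module
  obtain ⟨m₁, M₁, h1, h1'⟩ := exists_Icc (hc x hx) (hconv x) (hne x hx)
  obtain ⟨m₂, M₂, h2, h2'⟩ := exists_Icc (hc y hy) (hconv y) (hne y hy)
  have hmem : ∀ s₁ ∈ Icc m₁ M₁, ∀ s₂ ∈ Icc m₂ M₂,
      a * s₁ + b * s₂ ∈ {s : ℝ | p (a • x + b • y) + s • u ∈ K} := by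
    intro s₁ hs₁ s₂ hs₂
    rw [← h1'] at hs₁
    rw [← h2'] at hs₂
    have h3 := hK hs₁ hs₂ ha hb hab
    simp only [mem_ofPred_eq, smul_eq_mul]
    convert h3 using 1
    rw [hp a b x y hab]
    module
  have hz : a • x + b • y ∈ I := hI hx hy ha hb hab
  have hsub : Icc (a * m₁ + b * m₂) (a * M₁ + b * M₂) ⊆
      {s : ℝ | p (a • x + b • y) + s • u ∈ K} :=
    (hconv _).ordConnected.out (hmem m₁ (left_mem_Icc.2 h1) m₂ (left_mem_Icc.2 h2))
      (hmem M₁ (right_mem_Icc.2 h1) M₂ (right_mem_Icc.2 h2))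
  have h4 : (volume (Icc (a * m₁ + b * m₂) (a * M₁ + b * M₂))).toReal ≤
      (volume {s : ℝ | p (a • x + b • y) + s • u ∈ K}).toReal :=
    ENNReal.toReal_mono (hc _ hz).measure_lt_top.ne (measure_mono hsub)
  have h5 : a * m₁ + b * m₂ ≤ a * M₁ + b * M₂ :=
    add_le_add (mul_le_mul_of_nonneg_left h1 ha) (mul_le_mul_of_nonneg_left h2 hb)
  simp only [smul_eq_mul] at h4 ⊢
  rw [h1', h2']
  simp only [Real.volume_Icc] at h4 ⊢
  rw [ENNReal.toReal_ofReal (by linarith)] at h4
  rw [ENNReal.toReal_ofReal (by linarith), ENNReal.toReal_ofReal (by linarith)]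
  linarith

end S17

open S17 in
theorem t_xnh : XNHStmt := by
  intro K φ x hK
  have hopen : IsOpen {h : ℝ | Inl K φ x h} := by
    have : {h : ℝ | Inl K φ x h} = ⋃ s : ℝ,
        (fun h : ℝ => (((x : ℂ) * (Complex.I * e φ) + s * e φ, h) : ℂ × ℝ)) ⁻¹' interior K := by
      ext h
      simp only [mem_ofPred_eq, mem_iUnion, mem_preimage, Inl]
      constructor
      · rintro ⟨z, hz, hzx⟩
        refine ⟨yc φ z, ?_⟩
        have h1 := decomp φ z
        rw [hzx] at h1
        rw [add_comm, ← h1]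
        exact hz
      · rintro ⟨s, hs⟩
        refine ⟨_, hs, ?_⟩
        have hI : tc φ (Complex.I * e φ) = 1 := by
          simp only [tc, Complex.mul_im, Complex.mul_re, Complex.I_re, Complex.I_im, e_re, e_im]
          have := Real.sin_sq_add_cos_sq φ
          nlinarith
        rw [tc_add, tc_mul, tc_mul, hI, tc_e_self]
        ring
    rw [this]
    exact isOpen_iUnion fun s => isOpen_interior.preimage (by fun_prop)
  have hconvI : Convex ℝ {h : ℝ | Inl K φ x h} := by
    rintro h₁ ⟨z₁, hz₁, hx₁⟩ h₂ ⟨z₂, hz₂, hx₂⟩ a b ha hb hab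
    refine ⟨a • z₁ + b • z₂, ?_, ?_⟩
    · exact hK.conv.interior hz₁ hz₂ ha hb hab
    · rw [tc_add, tc_smul, tc_smul, hx₁, hx₂, ← add_mul, hab, one_mul]
  have hconc : ConcaveOn ℝ {h : ℝ | Inl K φ x h} (fun h => xr (sec K h) φ x) := by
    have h1 := len_concave hK.conv (fun h => (((x : ℂ) * (Complex.I * e φ), h) : ℂ × ℝ))
      ((e φ, (0 : ℝ)) : ℂ × ℝ) (by
        intro a b s t hab
        ext1
        · simp only [Prod.fst_add, Prod.smul_fst]
          rw [← add_smul, hab, one_smul]
        · simp only [Prod.snd_add, Prod.smul_snd, smul_eq_mul]) hconvI (by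
        rintro h ⟨z, hz, hzx⟩
        refine ⟨yc φ z, ?_⟩
        have h1 := decomp φ z
        rw [hzx] at h1
        have h2 : (((x : ℂ) * (Complex.I * e φ), h) : ℂ × ℝ) + yc φ z • ((e φ, (0 : ℝ)) : ℂ × ℝ)
            = (z, h) := by
          ext1
          · simp only [Prod.fst_add, Prod.smul_fst, Complex.real_smul]
            rw [add_comm, ← h1]
          · simp
        simp only [mem_ofPred_eq]
        rw [h2]
        exact interior_subset hz) (by
        intro h _
        have hcl : IsClosed {s : ℝ | (((x : ℂ) * (Complex.I * e φ), h) : ℂ × ℝ) +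
            s • ((e φ, (0 : ℝ)) : ℂ × ℝ) ∈ K} :=
          hK.cpt.isClosed.preimage (by fun_prop)
        obtain ⟨R, hR⟩ := hK.cpt.isBounded.exists_norm_le
        refine Metric.isCompact_of_isClosed_isBounded hcl ?_
        refine (Metric.isBounded_iff_subset_closedBall 0).2 ⟨R, fun s hs => ?_⟩
        have h1 := hR _ hs
        have h2 : ‖(x : ℂ) * (Complex.I * e φ) + s • e φ‖ ≤ R := by
          refine le_trans ?_ h1
          exact norm_fst_le ((((x : ℂ) * (Complex.I * e φ), h) : ℂ × ℝ) +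
            s • ((e φ, (0 : ℝ)) : ℂ × ℝ))
        have h3 : |yc φ ((x : ℂ) * (Complex.I * e φ) + s • e φ)| ≤
            ‖(x : ℂ) * (Complex.I * e φ) + s • e φ‖ := by
          set w := (x : ℂ) * (Complex.I * e φ) + s • e φ
          have h4 : yc φ w = (w * (starRingEnd ℂ) (e φ)).re := by
            simp [yc, Complex.mul_re]
            ring
          rw [h4]
          refine (Complex.abs_re_le_norm _).trans ?_
          rw [norm_mul, RCLike.norm_conj, norm_e, mul_one]
        have h4 : yc φ ((x : ℂ) * (Complex.I * e φ) + s • e φ) = s := by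
          rw [yc_add, yc_mul, yc_smul, yc_e_self]
          have : yc φ (Complex.I * e φ) = 0 := by
            simp only [yc, Complex.mul_im, Complex.mul_re, Complex.I_re, Complex.I_im, e_re, e_im]
            ring
          rw [this]; ring
        rw [h4] at h3
        rw [mem_closedBall_zero_iff, Real.norm_eq_abs]
        exact h3.trans h2)
    refine h1.congr ?_
    intro h _
    simp only [xr]
    congr 2
    ext s
    simp only [mem_ofPred_eq, sec]
    have : (((x : ℂ) * (Complex.I * e φ), h) : ℂ × ℝ) + s • ((e φ, (0 : ℝ)) : ℂ × ℝ) =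
        ((x : ℂ) * (Complex.I * e φ) + s * e φ, h) := by
      ext1 <;> simp
    rw [this]
  refine (cdiff_conc hopen hconc).mono ?_
  rintro y ⟨-, h1, h2⟩
  exact ⟨h1, h2⟩

end Pool.XR2
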